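import Pool.Agent.Helper42.SLC.Goals

/-!
# Project SL: failure on the level of `N` (goal `S_FRN`)
-/

namespace Pool.Agent.Helper56.SLC

open Pool.Agent.Helper17.SL Pool.Agent.Helper42.SLC
open Pool.Agent.Helper51.SigLeo Pool.Agent.Helper51.SixExp NumberField Module TensorProduct

universe u v w x y z

theorem logUnits_comp_incl {H N : Type*} [Field H] [Field N] [Algebra H N] {p : ℕ} {k : Type*}
    [NormedField k] (Λ : IwasawaLog p k) (ι : N →+* k) :
    (logUnits Λ ι).comp (inclUnits H N) = logUnits Λ (ι.comp (algebraMap H N)) := by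
  ext u
  rfl

theorem exists_nontrivial {k₀ K N : Type*} [Field k₀] [Field K] [Field N] [Algebra k₀ K]
    [Algebra k₀ N] [Algebra K N] [IsScalarTower k₀ K N] [FiniteDimensional k₀ N] [IsGalois k₀ N]
    (h : finrank k₀ K = 2) : ∃ s : N ≃ₐ[k₀] N, ∃ x : K, s (algebraMap K N x) ≠ algebraMap K N x := by
  by_contra hcon
  push Not at hcon
  have hbot : (⊥ : IntermediateField k₀ K) = ⊤ := by
    rw [eq_top_iff]
    intro x _
    have h1 : algebraMap K N x ∈ (⊥ : IntermediateField k₀ N) :=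
      (IsGalois.mem_bot_iff_fixed (algebraMap K N x)).mpr fun g => hcon g x
    rw [IntermediateField.mem_bot] at h1 ⊢
    obtain ⟨y, hy⟩ := h1
    refine ⟨y, ?_⟩
    apply (algebraMap K N).injective
    rw [← hy, IsScalarTower.algebraMap_apply k₀ K N]
  rw [IntermediateField.bot_eq_top_iff_finrank_eq_one] at hbot
  omega

theorem frn (hFR1 : S_FR1.{v, w, y, z}) (hNB1 : S_NB1.{v, w, x, z}) (hNB2 : S_NB2.{u, v, x, z}) :
    S_FRN.{u, v, w, x, y, z} := by
  intro k₀ _ K _ _ _ H _ _ N _ _ _ _ _ _ _ _ _ _ _ _ _ Ω _ _ _ p _ k _ _ _ _ ιinf ιp S χ Λ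
    θ θ' τ₁ τ₂ h2 h4 hS hχ hθ hθ' hfail hτ₁ hτ₂ hne v w
  classical
  have hchar : CharZero k := charZero_of_padic p (k := k)
  have hfdKN : FiniteDimensional K N := FiniteDimensional.right k₀ K N
  have hgalKN : IsGalois K N := IsGalois.tower_top_of_isGalois k₀ K N
  have hfdKH : FiniteDimensional K H := FiniteDimensional.left K H N
  let _ : Fintype (N ≃ₐ[K] N) := Fintype.ofFinite _
  let _ : Fintype (H ≃ₐ[K] H) := Fintype.ofFinite _
  -- the character of `Gal(N/K)`
  let R : (N ≃ₐ[K] N) →* (N ≃ₐ[k₀] N) :=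
    { toFun := fun g => g.restrictScalars k₀
      map_one' := rfl
      map_mul' := fun _ _ => rfl }
  let θK : (N ≃ₐ[K] N) →* kˣ := θ.comp R
  have hθK : ∀ g : N ≃ₐ[K] N, θK g = θ (g.restrictScalars k₀) := fun _ => rfl
  have hres : ∀ g : N ≃ₐ[K] N, ∀ x : H, (g.restrictScalars k₀) (algebraMap H N x) =
      algebraMap H N (g.restrictNormal H x) := by
    intro g x
    exact (AlgEquiv.restrictNormal_commutes g H x).symm
  have hθK' : ∀ g : N ≃ₐ[K] N, θK g = θ' (g.restrictScalars k₀) := by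
    intro g
    rw [hθK, hθ _ (g.restrictNormal H) (hres g), hθ' _ (g.restrictNormal H) (hres g)]
  have hcompat : Compat χ θK := by
    intro g h hgh
    exact hθ (g.restrictScalars k₀) h hgh
  -- the relation on the level of `H`
  have hcomp : ∀ τ : N →+* Ω, (τ.comp (algebraMap H N)).comp (algebraMap K H) =
      τ.comp (algebraMap K N) := by
    intro τ
    rw [RingHom.comp_assoc, ← IsScalarTower.algebraMap_eq K H N]
  have hF := hFR1 K H Ω p k ιinf ιp S χ Λ (τ₁.comp (algebraMap H N)) (τ₂.comp (algebraMap H N))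
    h4 hS hχ hfail (by rw [hcomp]; exact hτ₁) (by rw [hcomp]; exact hτ₂)
    (by rw [hcomp, hcomp]; exact hne)
  -- the relation for `θK`
  have hB : ∀ v w, tw θK (logUnits Λ (ιp.comp τ₁)) v * tw θK (logUnits Λ (ιp.comp τ₂)) w =
      tw θK (logUnits Λ (ιp.comp τ₂)) v * tw θK (logUnits Λ (ιp.comp τ₁)) w := by
    intro v w
    obtain ⟨v', hv'⟩ := hNB1 K H N k χ θK hcompat v
    obtain ⟨w', hw'⟩ := hNB1 K H N k χ θK hcompat w
    rw [hv', hv', hw', hw', logUnits_comp_incl, logUnits_comp_incl]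
    exact hF v' w'
  obtain ⟨s, hs⟩ := exists_nontrivial (k₀ := k₀) (K := K) (N := N) h2
  have hN := hNB2 k₀ K N k θ θK s h2 hθK hs
  have hN' := hNB2 k₀ K N k θ' θK s h2 hθK' hs
  rw [hN, hN, hN', hN']
  linear_combination hB v w + ((θ' s⁻¹ : kˣ) : k) * hB v (unitsHom s w) +
    ((θ s⁻¹ : kˣ) : k) * hB (unitsHom s v) w +
    ((θ s⁻¹ : kˣ) : k) * ((θ' s⁻¹ : kˣ) : k) * hB (unitsHom s v) (unitsHom s w)

end Pool.Agent.Helper56.SLC
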